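import Pool.Agent.H24.RCM.Targets

/-!
# HOD: odd functions with a support condition (MP_4d5ac9_nt)
-/

set_option autoImplicit false

open NumberField Polynomial nonZeroDivisors Pool.Agent.H26.NL Pool.Agent.H24.RCM

namespace Pool.Agent.H61.RCM

theorem pf_HOD : T_HOD := by
  classical
  intro G _ _ c ρ hc hcρ hf
  let N := Subgroup.zpowers ρ
  let mk : G → G ⧸ N := fun t => (QuotientGroup.mk t : G ⧸ N)
  obtain ⟨n, ⟨e⟩⟩ := Finite.exists_equiv_fin (G ⧸ N)
  let o : G → G := fun t => (mk t).out
  have hmk : ∀ a b : G, mk a = mk b ↔ a⁻¹ * b ∈ N := fun a b => QuotientGroup.eq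
  have ho : ∀ t, mk (o t) = mk t := fun t => QuotientGroup.out_eq' (mk t)
  have hoo : ∀ t t', mk t = mk t' → o t = o t' := fun t t' h => congrArg Quotient.out h
  have hcc : ∀ t, c * (c * t) = t := fun t => by rw [← mul_assoc, hc, one_mul]
  have hmc : ∀ t t', mk t = mk t' → mk (c * t) = mk (c * t') := by
    intro t t' h
    rw [hmk] at h ⊢
    have e1 : (c * t)⁻¹ * (c * t') = t⁻¹ * t' := by group
    rwa [e1]
  have hne : ∀ t, mk t ≠ mk (c * t) := by
    intro t h
    rw [hmk] at h
    have e1 : t⁻¹ * (c * t) = c := by rw [mul_comm c t, inv_mul_cancel_left]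
    rw [e1] at h
    exact hcρ h
  have hρN : ∀ t, ∀ z ∈ N, mk (t * z) = mk t := by
    intro t z hz
    rw [eq_comm, hmk, inv_mul_cancel_left]
    exact hz
  have hρ : ρ ∈ N := Subgroup.mem_zpowers ρ
  have hρ2 : ρ * ρ ∈ N := N.mul_mem hρ hρ
  have hρ1 : ρ ≠ 1 := by
    rintro rfl
    rw [orderOf_one] at hf
    omega
  have hρ3 : ρ * ρ ≠ 1 := by
    intro h
    have h1 : orderOf ρ ∣ 2 := orderOf_dvd_of_pow_eq_one (by rw [pow_two]; exact h)
    have := Nat.le_of_dvd (by norm_num) h1
    omega
  let A : G → Prop := fun t => e (mk t) < e (mk (c * t))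
  have hAc : ∀ t t', mk t = mk t' → A t → A t' := by
    intro t t' h h1
    change e (mk t') < e (mk (c * t'))
    rw [← h, ← hmc t t' h]
    exact h1
  have hA1 : ∀ t, A t → ¬ A (c * t) := by
    intro t h h1
    have h2 : e (mk (c * t)) < e (mk (c * (c * t))) := h1
    rw [hcc] at h2
    exact lt_asymm h h2
  have hA2 : ∀ t, ¬ A t → A (c * t) := by
    intro t h
    change e (mk (c * t)) < e (mk (c * (c * t)))
    rw [hcc]
    refine lt_of_le_of_ne (not_lt.1 h) fun h1 => hne t (e.injective h1).symm
  let H : Finset G := Finset.univ.filter fun t => A t ∧ t ≠ o t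
  let B : Finset G := Finset.univ.filter fun t => A t ∧ t = o t
  have hH : ∀ t, t ∈ H ↔ A t ∧ t ≠ o t := fun t => by simp [H]
  have hB : ∀ t, t ∈ B ↔ A t ∧ t = o t := fun t => by simp [B]
  have c1 : Fintype.card G = (Finset.univ.filter fun t => A t).card +
      (Finset.univ.filter fun t => ¬ A t).card := by
    rw [Finset.card_filter_add_card_filter_not, Finset.card_univ]
  have c2 : (Finset.univ.filter fun t => ¬ A t).card = (Finset.univ.filter fun t => A t).card := by
    refine Finset.card_bij (fun t _ => c * t) ?_ ?_ ?_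
    · intro t ht
      simp only [Finset.mem_filter, Finset.mem_univ, true_and] at ht ⊢
      exact hA2 t ht
    · intro t _ t' _ h
      exact mul_left_cancel h
    · intro t ht
      simp only [Finset.mem_filter, Finset.mem_univ, true_and] at ht
      refine ⟨c * t, ?_, hcc t⟩
      simp only [Finset.mem_filter, Finset.mem_univ, true_and]
      exact hA1 t ht
  have c3 : (Finset.univ.filter fun t => A t).card = H.card + B.card := by
    rw [← Finset.card_union_of_disjoint]
    · congr 1
      ext t
      simp only [Finset.mem_filter, Finset.mem_univ, true_and, Finset.mem_union, hH, hB]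
      tauto
    · rw [Finset.disjoint_left]
      intro t h1 h2
      exact ((hH t).1 h1).2 ((hB t).1 h2).2
  have c4 : B.card + B.card ≤ H.card := by
    have e1 : (B.image fun t => t * ρ).card = B.card :=
      Finset.card_image_of_injective _ (mul_left_injective ρ)
    have e2 : (B.image fun t => t * (ρ * ρ)).card = B.card :=
      Finset.card_image_of_injective _ (mul_left_injective (ρ * ρ))
    have hsub : ∀ z ∈ N, z ≠ 1 → ∀ t ∈ B, t * z ∈ H := by
      intro z hz hz1 t ht
      obtain ⟨h1, h2⟩ := (hB t).1 ht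
      rw [hH]
      refine ⟨hAc t _ (hρN t z hz).symm h1, ?_⟩
      intro h3
      rw [hoo _ _ (hρN t z hz), ← h2] at h3
      exact hz1 (mul_eq_left.1 h3)
    have e3 : (B.image fun t => t * ρ) ∪ (B.image fun t => t * (ρ * ρ)) ⊆ H := by
      intro x hx
      rw [Finset.mem_union, Finset.mem_image, Finset.mem_image] at hx
      rcases hx with ⟨t, ht, rfl⟩ | ⟨t, ht, rfl⟩
      · exact hsub ρ hρ hρ1 t ht
      · exact hsub _ hρ2 hρ3 t ht
    have e4 : Disjoint (B.image fun t => t * ρ) (B.image fun t => t * (ρ * ρ)) := by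
      rw [Finset.disjoint_left]
      intro x hx hx'
      rw [Finset.mem_image] at hx hx'
      obtain ⟨t, ht, rfl⟩ := hx
      obtain ⟨t', ht', h⟩ := hx'
      have h1 : mk t = mk t' := by
        rw [← hρN t ρ hρ, ← hρN t' _ hρ2]
        exact congrArg mk h.symm
      have h2 : t = t' := by
        rw [((hB t).1 ht).2, ((hB t').1 ht').2]
        exact hoo _ _ h1
      subst h2
      have h3 := mul_left_cancel h
      exact hρ1 (mul_eq_left.1 h3)
    have e5 := Finset.card_le_card e3
    rw [Finset.card_union_of_disjoint e4, e1, e2] at e5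
    exact e5
  refine ⟨H, by omega, ?_⟩
  intro V hV hU
  have hU' : ∀ z ∈ N, ∀ t, V t - V (c * t) = V (t * z) - V (c * (t * z)) := by
    intro z hz
    obtain ⟨m, rfl⟩ := (mem_powers_iff_mem_zpowers (x := ρ)).2 hz
    clear hz
    induction m with
    | zero => intro t; simp
    | succ m ih =>
      intro t
      have h1 := hU (t * ρ ^ m)
      have h2 := ih t
      change V t - V (c * t) = V (t * ρ ^ (m + 1)) - V (c * (t * ρ ^ (m + 1)))
      rw [pow_succ, ← mul_assoc, ← h1]
      exact h2
  funext t
  by_cases ht : t ∈ H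
  · obtain ⟨h1, _⟩ := (hH t).1 ht
    have h2 : t⁻¹ * o t ∈ N := (hmk t (o t)).1 (ho t).symm
    have h3 := hU' _ h2 t
    rw [mul_inv_cancel_left] at h3
    have h4 : V (c * t) = 0 := hV _ fun h => hA1 t h1 ((hH _).1 h).1
    have h5 : V (o t) = 0 := hV _ fun h => ((hH _).1 h).2 (hoo _ _ (ho t)).symm
    have h6 : V (c * o t) = 0 := hV _ fun h =>
      hA1 (o t) (hAc t (o t) (ho t).symm h1) ((hH _).1 h).1
    rw [h4, h5, h6] at h3
    simpa using h3
  · exact hV t ht

end Pool.Agent.H61.RCM
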